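import Pool.Agent.Y961.JR.ScaledJ
import Pool.Agent.TH915.PW.BohrFin

set_option autoImplicit false

/-!
# Record prime gaps around both coordinates of a point of a unimodular two dimensional family
-/

namespace Pool.Agent.N825.ND

open Finset Filter
open Pool.Agent.H256R2.SC (count_ap)
open Pool.Agent.Y961.JR (critJ)
open Pool.Agent.W147.PS (ff ff_compare ev_pow)

/-- The family `(n₀ + x a + y b, m₀ + x c + y d)` with `a d - b c = ± 1`. -/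
def fam (n₀ m₀ a b c d : ℤ) (z : ℤ × ℤ) : Fin 2 → ℤ :=
  ![n₀ + z.1 * a + z.2 * b, m₀ + z.1 * c + z.2 * d]

lemma dvd_solve (q : ℤ) (n₀ m₀ a b c d D : ℤ) (hD : a * d - b * c = D) (hD2 : D * D = 1)
    (ρ : Fin 2 → ℤ) (z : ℤ × ℤ) :
    (∀ j, q ∣ fam n₀ m₀ a b c d z j - ρ j) ↔
      q ∣ z.1 - D * (d * (ρ 0 - n₀) - b * (ρ 1 - m₀)) ∧
      q ∣ z.2 - D * (a * (ρ 1 - m₀) - c * (ρ 0 - n₀)) := by
  rw [Fin.forall_fin_two]
  simp only [fam, Matrix.cons_val_zero, Matrix.cons_val_one]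
  constructor
  · rintro ⟨⟨k, hk⟩, ⟨l, hl⟩⟩
    constructor
    · refine ⟨D * (d * k - b * l), ?_⟩
      have e1 : z.1 * a + z.2 * b = q * k + (ρ 0 - n₀) := by linarith
      have e2 : z.1 * c + z.2 * d = q * l + (ρ 1 - m₀) := by linarith
      have e3 : z.1 = D * (d * (z.1 * a + z.2 * b) - b * (z.1 * c + z.2 * d)) := by
        have : d * (z.1 * a + z.2 * b) - b * (z.1 * c + z.2 * d) = (a * d - b * c) * z.1 := by ring
        rw [this, hD, ← mul_assoc, hD2, one_mul]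
      rw [e1, e2] at e3
      linear_combination e3
    · refine ⟨D * (a * l - c * k), ?_⟩
      have e1 : z.1 * a + z.2 * b = q * k + (ρ 0 - n₀) := by linarith
      have e2 : z.1 * c + z.2 * d = q * l + (ρ 1 - m₀) := by linarith
      have e3 : z.2 = D * (a * (z.1 * c + z.2 * d) - c * (z.1 * a + z.2 * b)) := by
        have : a * (z.1 * c + z.2 * d) - c * (z.1 * a + z.2 * b) = (a * d - b * c) * z.2 := by ring
        rw [this, hD, ← mul_assoc, hD2, one_mul]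
      rw [e1, e2] at e3
      linear_combination e3
  · rintro ⟨⟨k, hk⟩, ⟨l, hl⟩⟩
    have e1 : z.1 = q * k + D * (d * (ρ 0 - n₀) - b * (ρ 1 - m₀)) := by linarith
    have e2 : z.2 = q * l + D * (a * (ρ 1 - m₀) - c * (ρ 0 - n₀)) := by linarith
    constructor
    · refine ⟨k * a + l * b, ?_⟩
      rw [e1, e2]
      have h := hD
      have : n₀ + (q * k + D * (d * (ρ 0 - n₀) - b * (ρ 1 - m₀))) * a +
          (q * l + D * (a * (ρ 1 - m₀) - c * (ρ 0 - n₀))) * b - ρ 0 =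
          q * (k * a + l * b) + (D * (a * d - b * c) - 1) * (ρ 0 - n₀) := by ring
      rw [this, hD, hD2]
      ring
    · refine ⟨k * c + l * d, ?_⟩
      rw [e1, e2]
      have : m₀ + (q * k + D * (d * (ρ 0 - n₀) - b * (ρ 1 - m₀))) * c +
          (q * l + D * (a * (ρ 1 - m₀) - c * (ρ 0 - n₀))) * d - ρ 1 =
          q * (k * c + l * d) + (D * (a * d - b * c) - 1) * (ρ 1 - m₀) := by ring
      rw [this, hD, hD2]
      ring

/-- The number of the points of a square box in a residue class. -/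
lemma count_box (L : ℕ) (hL : 1 ≤ L) (q : ℕ) (hq : 1 ≤ q) (x₀ y₀ : ℤ) :
    |(((Ioc (0 : ℤ) L ×ˢ Ioc (0 : ℤ) L).filter
      (fun z => (q : ℤ) ∣ z.1 - x₀ ∧ (q : ℤ) ∣ z.2 - y₀)).card : ℝ) - (L : ℝ) ^ 2 / (q : ℝ) ^ 2| ≤
      3 * L := by
  have h1 : (Ioc (0 : ℤ) L ×ˢ Ioc (0 : ℤ) L).filter
      (fun z => (q : ℤ) ∣ z.1 - x₀ ∧ (q : ℤ) ∣ z.2 - y₀) =
      ((Ioc (0 : ℤ) L).filter (fun x => (q : ℤ) ∣ x - x₀)) ×ˢ
        ((Ioc (0 : ℤ) L).filter (fun y => (q : ℤ) ∣ y - y₀)) := by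
    rw [← Finset.filter_product]
  rw [h1, Finset.card_product]
  push_cast
  have h0 : (0 : ℤ) ≤ L := by positivity
  have hx := count_ap 0 L h0 q hq x₀
  have hy := count_ap 0 L h0 q hq y₀
  set A : ℝ := (((Ioc (0 : ℤ) L).filter (fun x => (q : ℤ) ∣ x - x₀)).card : ℝ) with hA
  set B : ℝ := (((Ioc (0 : ℤ) L).filter (fun x => (q : ℤ) ∣ x - y₀)).card : ℝ) with hB
  have hA0 : 0 ≤ A := Nat.cast_nonneg _
  have hB0 : 0 ≤ B := Nat.cast_nonneg _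
  have hL0 : (1 : ℝ) ≤ L := by exact_mod_cast hL
  have hq0 : (1 : ℝ) ≤ q := by exact_mod_cast hq
  push_cast at hx hy
  rw [sub_zero] at hx hy
  set T : ℝ := (L : ℝ) / q with hT
  have hT0 : 0 ≤ T := by positivity
  have hTL : T ≤ L := div_le_self (by linarith) hq0
  have e : (L : ℝ) ^ 2 / (q : ℝ) ^ 2 = T * T := by rw [hT]; ring
  rw [e]
  obtain ⟨x1, x2⟩ := abs_le.1 hx
  obtain ⟨y1, y2⟩ := abs_le.1 hy
  rw [abs_le]
  constructor
  · nlinarith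
  · nlinarith

/-- In every square box of a unimodular two dimensional family of pairs of integers there is a pair
both of whose members are in the middle of a long run of integers with a small prime factor. -/
theorem box : ∃ κ : ℝ, 0 < κ ∧ ∃ X₀ : ℝ, ∀ X : ℝ, X₀ ≤ X → ∀ L : ℕ, X ^ 5 ≤ L →
    ∀ (n₀ m₀ a b c d D : ℤ), a * d - b * c = D → D * D = 1 →
    ∃ x y : ℤ, (0 < x ∧ x ≤ L) ∧ (0 < y ∧ y ≤ L) ∧
      (∀ t : ℤ, |(t : ℝ) - (n₀ + x * a + y * b : ℤ)| ≤ κ * ff X →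
        ∃ p : ℕ, p.Prime ∧ (p : ℝ) ≤ X ^ (1 / 10 : ℝ) ∧ (p : ℤ) ∣ t) ∧
      (∀ t : ℤ, |(t : ℝ) - (m₀ + x * c + y * d : ℤ)| ≤ κ * ff X →
        ∃ p : ℕ, p.Prime ∧ (p : ℝ) ≤ X ^ (1 / 10 : ℝ) ∧ (p : ℤ) ∣ t) := by
  obtain ⟨κ, hκ, X₁, h1⟩ := critJ 2 (by norm_num)
  refine ⟨κ, hκ, max X₁ 3, ?_⟩
  intro X hX L hXL n₀ m₀ a b c d D hD hD2
  have hX3 : 3 ≤ X := (le_max_right _ _).trans hX
  have hX0 : 0 < X := by linarith
  have hL0 : (0 : ℝ) < L := lt_of_lt_of_le (by positivity) hXL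
  have hL1 : 1 ≤ L := by
    have : 0 < L := by exact_mod_cast hL0
    omega
  obtain ⟨_, hcr⟩ := h1 X ((le_max_left _ _).trans hX)
  have hcard : ((Ioc (0 : ℤ) L ×ˢ Ioc (0 : ℤ) L).card : ℝ) = (L : ℝ) ^ 2 := by
    rw [Finset.card_product, Int.card_Ioc]
    push_cast
    simp
    ring
  obtain ⟨z, hz, hz2⟩ := hcr (ℤ × ℤ) (Ioc (0 : ℤ) L ×ˢ Ioc (0 : ℤ) L) (fam n₀ m₀ a b c d)
    (by
      have h1L : (1 : ℤ) ≤ L := by exact_mod_cast hL1
      exact ⟨((1 : ℤ), (1 : ℤ)), Finset.mem_product.2 ⟨Finset.mem_Ioc.2 ⟨by norm_num, h1L⟩,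
        Finset.mem_Ioc.2 ⟨by norm_num, h1L⟩⟩⟩) (by
    intro q hq hqX ρ
    rw [hcard]
    have e1 : (Ioc (0 : ℤ) L ×ˢ Ioc (0 : ℤ) L).filter
        (fun i => ∀ j, (q : ℤ) ∣ fam n₀ m₀ a b c d i j - ρ j) =
        (Ioc (0 : ℤ) L ×ˢ Ioc (0 : ℤ) L).filter
          (fun z => (q : ℤ) ∣ z.1 - D * (d * (ρ 0 - n₀) - b * (ρ 1 - m₀)) ∧
            (q : ℤ) ∣ z.2 - D * (a * (ρ 1 - m₀) - c * (ρ 0 - n₀))) :=
      Finset.filter_congr fun z _ => dvd_solve q n₀ m₀ a b c d D hD hD2 ρ z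
    rw [e1]
    refine (count_box L hL1 q hq _ _).trans ?_
    have e2 : X ^ (-(2 * ((2 : ℕ) : ℝ))) = (X ^ 4)⁻¹ := by
      rw [Real.rpow_neg hX0.le]
      congr 1
      rw [← Real.rpow_natCast]
      norm_num
    rw [e2, ← div_eq_mul_inv, le_div_iff₀ (by positivity)]
    have e3 : X ^ 5 = X * X ^ 4 := by ring
    have h4 : 0 < X ^ 4 := by positivity
    nlinarith)
  rw [Finset.mem_product, Finset.mem_Ioc, Finset.mem_Ioc] at hz
  have hff : Pool.Agent.H256R2.SC.ff X = ff X := rfl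
  refine ⟨z.1, z.2, hz.1, hz.2, ?_, ?_⟩
  · intro t ht
    have h5 := hz2 0 t
    simp only [fam, Matrix.cons_val_zero] at h5
    rw [hff] at h5
    exact h5 (ht.trans (by linarith))
  · intro t ht
    have h5 := hz2 1 t
    simp only [fam, Matrix.cons_val_one] at h5
    rw [hff] at h5
    exact h5 (ht.trans (by linarith))

end Pool.Agent.N825.ND
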