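import Pool.Agent.N825.ND.Unif

set_option autoImplicit false

/-!
# Rational approximations whose numerator and denominator lie in record prime gaps
-/

namespace Pool.Agent.N825.ND

open Finset Filter
open Pool.Agent.TH915.PW (pair bad_N)
open Pool.Agent.W147.PS (ff ff_compare ev_pow)

/-- `n`, `m` with `|α n - β - m|` small in the middle of record runs -/
def Both (κ ε α ρ Z : ℝ) : Prop :=
  ∀ M β : ℝ, ∃ n m : ℤ, M < n ∧ (n : ℝ) ≤ M + Z ∧ |α * n - β - m| ≤ Z ^ (-ρ) ∧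
    Mid κ ε Z n ∧ Mid κ ε Z m

lemma Mid.mono {κ ε ε' Z : ℝ} (hZ : 1 ≤ Z) (hε : ε ≤ ε') {n : ℤ} (h : Mid κ ε Z n) :
    Mid κ ε' Z n := by
  intro t ht
  obtain ⟨p, hp, hpX, hpt⟩ := h t ht
  exact ⟨p, hp, hpX.trans (Real.rpow_le_rpow_of_exponent_le hZ hε), hpt⟩

lemma both_of_le (κ ε δ α ρ Z : ℝ) (hZ : 1 ≤ Z) (hδ : δ ≤ ε)
    (h : ∀ M β : ℝ, ∃ n m : ℤ, M < n ∧ (n : ℝ) ≤ M + Z ∧ |α * n - β - m| ≤ ρ ∧
      Mid κ δ Z n ∧ Mid κ δ Z m) (ρ' : ℝ) (hρ : ρ ≤ Z ^ (-ρ')) : Both κ ε α ρ' Z := by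
  intro M β
  obtain ⟨n, m, h1, h2, h3, h4, h5⟩ := h M β
  exact ⟨n, m, h1, h2, h3.trans hρ, h4.mono hZ hδ, h5.mono hZ hδ⟩

theorem main (ε : ℝ) (hε : 0 < ε) (hε1 : ε ≤ 1) : ∃ κ : ℝ, 0 < κ ∧
    (∀ α : ℝ, Irrational α → ∃ᶠ Z : ℝ in atTop, Both κ ε α (1 - ε) Z) ∧
    ∀ α μ C : ℝ, 1 ≤ μ → 0 < C →
      (∀ q : ℕ, 1 ≤ q → ∀ p : ℤ, C * (q : ℝ) ^ (-μ) ≤ |(q : ℝ) * α - p|) →
      ∀ᶠ Z : ℝ in atTop, Both κ ε α (1 / μ - ε) Z := by
  classical
  set δ : ℝ := ε / 4 with hδ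
  have hδ0 : 0 < δ := by positivity
  have hδε : δ ≤ ε := by rw [hδ]; linarith
  obtain ⟨κ, hκ, hB⟩ := unif δ hδ0 (by linarith)
  refine ⟨κ, hκ, ?_, ?_⟩
  · intro α hα
    rw [frequently_atTop]
    intro Z₀
    -- all large `Z` are fine
    obtain ⟨Z₁, hZ₁⟩ := eventually_atTop.1 (hB.and ((eventually_ge_atTop (1 : ℝ)).and
      (ev_pow 0 δ 4 (by linarith))))
    obtain ⟨N₁, hN₁⟩ := exists_nat_ge (max Z₀ (max Z₁ 1))
    have hN₁1 : 1 ≤ N₁ := by
      have : (1 : ℝ) ≤ N₁ := ((le_max_right _ _).trans (le_max_right _ _)).trans hN₁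
      exact_mod_cast this
    obtain ⟨N, hNN, hN⟩ := bad_N α hα N₁ hN₁1
    have hNN' : (N₁ : ℝ) ≤ N := by exact_mod_cast hNN
    have hN1 : (1 : ℝ) ≤ N := by
      have : (1 : ℝ) ≤ N₁ := by exact_mod_cast hN₁1
      linarith
    set Z : ℝ := (4 * N : ℝ) ^ (1 / (1 - δ)) with hZ
    have hδ1 : 0 < 1 - δ := by linarith
    have hZN : (4 * N : ℝ) ≤ Z := by
      conv_lhs => rw [← Real.rpow_one (4 * N : ℝ)]
      rw [hZ]
      apply Real.rpow_le_rpow_of_exponent_le (by linarith)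
      rw [le_div_iff₀ hδ1]
      linarith
    have hZpow : Z ^ (1 - δ) = 4 * N := by
      rw [hZ, ← Real.rpow_mul (by positivity)]
      rw [one_div, inv_mul_cancel₀ hδ1.ne', Real.rpow_one]
    have hZ0 : 0 < Z := by linarith
    have hZge : N₁ ≤ Z := by linarith
    obtain ⟨hcl, hZ1, hZ4⟩ := hZ₁ Z
      ((((le_max_left _ _).trans (le_max_right _ _)).trans hN₁).trans hZge)
    refine ⟨Z, ((le_max_left _ _).trans hN₁).trans hZge, ?_⟩
    refine both_of_le κ ε δ α (Z ^ δ / N) Z hZ1 hδε (hcl α N (by omega) ?_) _ ?_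
    · intro q h1 h2 p
      refine le_trans (le_of_eq ?_) (hN q h1 h2 p)
      rw [Real.rpow_neg hZ0.le, hZpow, one_div]
    · have h1 : (N : ℝ) = Z ^ (1 - δ) / 4 := by rw [hZpow]; ring
      rw [h1, div_div_eq_mul_div, div_le_iff₀ (by positivity), ← Real.rpow_add hZ0]
      rw [Real.rpow_zero] at hZ4
      calc Z ^ δ * 4 ≤ Z ^ δ * Z ^ δ := by
            have := Real.rpow_pos_of_pos hZ0 δ
            nlinarith
        _ = Z ^ (δ + δ) := by rw [← Real.rpow_add hZ0]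
        _ ≤ Z ^ (-(1 - ε) + (1 - δ)) := by
            apply Real.rpow_le_rpow_of_exponent_le hZ1
            rw [hδ]; linarith
  · intro α μ C hμ hC hq
    have hμ0 : 0 < μ := by linarith
    have hδ1 : 0 < 1 - δ := by linarith
    -- the eventual inequalities
    have hlim : Tendsto (fun Z : ℝ => (C * Z ^ (1 - δ)) ^ (1 / μ)) atTop atTop :=
      (tendsto_rpow_atTop (by positivity)).comp
        (Tendsto.const_mul_atTop hC (tendsto_rpow_atTop hδ1))
    filter_upwards [hB, eventually_ge_atTop (1 : ℝ), hlim.eventually_ge_atTop 1,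
      ev_pow 0 δ (2 * (1 / C) ^ (1 / μ)) (by linarith)] with Z hcl hZ1 hX hZ4
    have hZ0 : 0 < Z := by linarith
    set X : ℝ := (C * Z ^ (1 - δ)) ^ (1 / μ) with hXdef
    set N : ℕ := ⌊X⌋₊ with hN
    have hN1 : 1 ≤ N := Nat.le_floor (by simpa using hX)
    have hN0 : (0 : ℝ) < N := by exact_mod_cast hN1
    have hNX : (N : ℝ) ≤ X := Nat.floor_le (by linarith)
    have hXN : X ≤ 2 * N := by
      have := Nat.lt_floor_add_one X
      have h1 : (1 : ℝ) ≤ N := by exact_mod_cast hN1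
      linarith
    refine both_of_le κ ε δ α (Z ^ δ / N) Z hZ1 hδε (hcl α N hN1 ?_) _ ?_
    · intro q h1 h2 p
      refine le_trans ?_ (hq q h1 p)
      have hq0 : (0 : ℝ) < q := by exact_mod_cast h1
      have hqX : (q : ℝ) ≤ X := by
        have : (q : ℝ) ≤ N := by exact_mod_cast h2
        linarith
      have h3 : (q : ℝ) ^ μ ≤ C * Z ^ (1 - δ) := by
        calc (q : ℝ) ^ μ ≤ X ^ μ := by gcongr
          _ = C * Z ^ (1 - δ) := by
            rw [hXdef, ← Real.rpow_mul (by positivity)]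
            rw [one_div, inv_mul_cancel₀ hμ0.ne', Real.rpow_one]
      rw [Real.rpow_neg hZ0.le, Real.rpow_neg hq0.le, ← div_eq_mul_inv, le_div_iff₀ (by positivity),
        inv_mul_le_iff₀ (by positivity)]
      linarith
    · rw [div_le_iff₀ hN0]
      have hXeq : X = C ^ (1 / μ) * Z ^ ((1 - δ) / μ) := by
        rw [hXdef, Real.mul_rpow hC.le (by positivity), ← Real.rpow_mul hZ0.le]
        congr 2
        ring
      rw [Real.rpow_zero, mul_one, one_div C, Real.inv_rpow hC.le] at hZ4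
      have hCp : 0 < C ^ (1 / μ) := Real.rpow_pos_of_pos hC _
      have h5 : 2 ≤ Z ^ δ * C ^ (1 / μ) := by
        have := mul_le_mul_of_nonneg_right hZ4 hCp.le
        have h6 : 2 * (C ^ (1 / μ))⁻¹ * C ^ (1 / μ) = 2 := by field_simp
        linarith
      have h7 : 1 / μ ≤ 1 := by
        rw [div_le_one hμ0]; exact hμ
      have h8 : Z ^ δ ≤ Z ^ (-(1 / μ - ε)) * Z ^ (-δ) * Z ^ ((1 - δ) / μ) := by
        rw [← Real.rpow_add hZ0, ← Real.rpow_add hZ0]
        apply Real.rpow_le_rpow_of_exponent_le hZ1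
        have : (1 - δ) / μ = 1 / μ - δ * (1 / μ) := by ring
        rw [this]
        have h9 : δ * (1 / μ) ≤ δ := by nlinarith
        rw [hδ] at h9 ⊢
        linarith
      have h10 : Z ^ (-δ) * Z ^ δ = 1 := by
        rw [← Real.rpow_add hZ0]; simp
      calc Z ^ δ ≤ Z ^ (-(1 / μ - ε)) * Z ^ (-δ) * Z ^ ((1 - δ) / μ) * 1 := by
            rw [mul_one]; exact h8
        _ ≤ Z ^ (-(1 / μ - ε)) * Z ^ (-δ) * Z ^ ((1 - δ) / μ) * (Z ^ δ * C ^ (1 / μ) / 2) := by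
            gcongr
            linarith
        _ = Z ^ (-(1 / μ - ε)) * (Z ^ (-δ) * Z ^ δ) * (C ^ (1 / μ) * Z ^ ((1 - δ) / μ) / 2) := by
            ring
        _ = Z ^ (-(1 / μ - ε)) * (X / 2) := by rw [h10, mul_one, ← hXeq]
        _ ≤ Z ^ (-(1 / μ - ε)) * N := by
            gcongr
            linarith

/-- from small factors to primes -/
lemma no_prime {κ ε Z : ℝ} {n : ℤ} (h : Mid κ ε Z n) (hn : Z ^ ε + κ * ff Z < n) (q : ℕ)
    (hq : q.Prime) : κ * ff Z < |(q : ℝ) - n| := by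
  by_contra hcon
  push Not at hcon
  obtain ⟨p, hp, hpX, hpt⟩ := h q (by push_cast; exact hcon)
  have h6 : p = q := (Nat.prime_dvd_prime_iff_eq hp hq).mp (by exact_mod_cast hpt)
  rw [h6] at hpX
  have h8 := abs_le.mp hcon
  linarith [h8.1]

lemma ff_small (κ c : ℝ) (hc : 0 < c) : ∀ᶠ Z : ℝ in atTop, κ * ff Z ≤ c * Z := by
  have h1 := ff_compare 1 one_pos le_rfl
  -- `ff Z ≤ (log Z) ^ 4`
  have t1 : Tendsto Real.log atTop atTop := Real.tendsto_log_atTop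
  have t2 : Tendsto (fun M : ℝ => Real.log (Real.log M)) atTop atTop := t1.comp t1
  have t3 : Tendsto (fun M : ℝ => Real.log (Real.log (Real.log M))) atTop atTop := t1.comp t2
  have t4 : Tendsto (fun M : ℝ => Real.log (Real.log (Real.log (Real.log M)))) atTop atTop :=
    t1.comp t3
  have hlog : ∀ᶠ Z : ℝ in atTop, (Real.log Z) ^ 4 * (|κ| + 1) ≤ c * Z := by
    have h := (Real.isLittleO_pow_log_id_atTop (n := 4)).def (show (0 : ℝ) < c / (|κ| + 1) by positivity)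
    filter_upwards [h, eventually_ge_atTop (1 : ℝ)] with Z hZ hZ1
    have hk : 0 < |κ| + 1 := by positivity
    rw [Real.norm_of_nonneg (by have := Real.log_nonneg hZ1; positivity), id,
      Real.norm_of_nonneg (by linarith)] at hZ
    calc (Real.log Z) ^ 4 * (|κ| + 1) ≤ (c / (|κ| + 1) * Z) * (|κ| + 1) := by gcongr
      _ = c * Z := by field_simp
  filter_upwards [hlog, eventually_ge_atTop 1, t1.eventually_ge_atTop 1, t2.eventually_ge_atTop 1,
    t3.eventually_ge_atTop 1, t4.eventually_ge_atTop 0] with Z h0 hZ1 m1 m2 m3 m4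
  have e2 : Real.log (Real.log Z) ≤ Real.log Z := (Real.log_le_sub_one_of_pos (by linarith)).trans
    (by linarith)
  have e3 : Real.log (Real.log (Real.log Z)) ≤ Real.log (Real.log Z) :=
    (Real.log_le_sub_one_of_pos (by linarith)).trans (by linarith)
  have e4 : Real.log (Real.log (Real.log (Real.log Z))) ≤ Real.log (Real.log (Real.log Z)) :=
    (Real.log_le_sub_one_of_pos (by linarith)).trans (by linarith)
  have hle : ff Z ≤ (Real.log Z) ^ 4 := by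
    unfold ff
    rw [div_le_iff₀ (by positivity)]
    have f1 : (Real.log (Real.log Z)) ^ 2 ≤ (Real.log Z) ^ 2 :=
      pow_le_pow_left₀ (by linarith) e2 2
    have f2 : Real.log (Real.log (Real.log (Real.log Z))) ≤ Real.log Z := by linarith
    calc Real.log Z * (Real.log (Real.log Z)) ^ 2 * Real.log (Real.log (Real.log (Real.log Z)))
        ≤ Real.log Z * (Real.log Z) ^ 2 * Real.log Z := by gcongr
      _ = (Real.log Z) ^ 4 * 1 := by ring
      _ ≤ (Real.log Z) ^ 4 * (Real.log (Real.log (Real.log Z))) ^ 2 := by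
          apply mul_le_mul_of_nonneg_left _ (by positivity)
          nlinarith
  have hff0 : 0 ≤ ff Z := by unfold ff; positivity
  calc κ * ff Z ≤ |κ| * ff Z := mul_le_mul_of_nonneg_right (le_abs_self κ) hff0
    _ ≤ (|κ| + 1) * (Real.log Z) ^ 4 := by
        have := abs_nonneg κ
        gcongr
        linarith
    _ ≤ c * Z := by linarith

/-- the homogeneous form for positive irrational numbers, in terms of primes -/
theorem homog (ε : ℝ) (hε : 0 < ε) (hε1 : ε < 1) : ∃ κ : ℝ, 0 < κ ∧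
    ∀ α : ℝ, 0 < α → Irrational α → ∀ X : ℝ, ∃ n m : ℕ, X ≤ n ∧ X ≤ m ∧
      |α - m / n| ≤ (n : ℝ) ^ (-(2 - ε)) ∧
      (∀ q : ℕ, q.Prime → κ * ff n < |(q : ℝ) - n|) ∧
      (∀ q : ℕ, q.Prime → κ * ff n < |(q : ℝ) - m|) := by
  obtain ⟨κ, hκ, h1, _⟩ := main (ε / 2) (by positivity) (by linarith)
  refine ⟨κ * (1 / 2 / 32), by positivity, ?_⟩
  intro α hα hirr X
  have hfr := h1 α hirr
  have hev : ∀ᶠ Z : ℝ in atTop, 1 ≤ Z ∧ max X 2 ≤ Z ∧ X + 1 ≤ α * Z ∧
      κ * ff Z ≤ min (1 / 2) (α / 4) * Z ∧ 4 ≤ α * Z ∧ 2 * Z ^ (ε / 2) ≤ Z ^ (1 : ℝ) / 2 ∧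
      (4 / α + 1) * Z ^ (ε / 2) ≤ Z ^ (1 : ℝ) ∧ 2 * Z ^ (-(1 - ε / 2)) ≤ Z ^ (-(1 - ε)) := by
    have hαt : Tendsto (fun Z : ℝ => α * Z) atTop atTop := tendsto_id.const_mul_atTop hα
    filter_upwards [eventually_ge_atTop 1, eventually_ge_atTop (max X 2),
      hαt.eventually_ge_atTop (X + 1), ff_small κ (min (1 / 2) (α / 4)) (by positivity),
      hαt.eventually_ge_atTop 4, ev_pow (ε / 2) 1 4 (by linarith),
      ev_pow (ε / 2) 1 (4 / α + 1) (by linarith),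
      ev_pow (-(1 - ε / 2)) (-(1 - ε)) 2 (by linarith)] with Z a1 a2 a3 a4 a5 a6 a7 a8
    exact ⟨a1, a2, a3, a4, a5, by linarith, a7, a8⟩
  have hcmp : ∀ᶠ Z : ℝ in atTop, ∀ y : ℝ, Z ≤ y → y ≤ 2 * Z → 1 / 2 / 32 * ff y ≤ ff Z := by
    obtain ⟨Y₀, hY₀⟩ := eventually_atTop.1 (ff_compare (1 / 2) (by norm_num) (by norm_num))
    filter_upwards [eventually_ge_atTop (max Y₀ 4)] with Z hZ y hy1 hy2
    have hZ4 : 4 ≤ Z := (le_max_right _ _).trans hZ
    have h5 := (hY₀ y (((le_max_left _ _).trans hZ).trans hy1)).2 Z (by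
      rw [← Real.sqrt_eq_rpow]
      apply Real.sqrt_le_iff.2
      constructor
      · linarith
      · nlinarith) (by nlinarith)
    exact h5.1
  obtain ⟨Z, hBoth, ⟨b1, b2, b3, b4, b5, b6, b7, b8⟩, b9⟩ := (hfr.and_eventually (hev.and hcmp)).exists
  obtain ⟨n, m, n1, n2, n3, n4, n5⟩ := hBoth Z 0
  rw [Real.rpow_one] at b6 b7
  have hZ0 : 0 < Z := by linarith
  have hff : κ * ff Z ≤ 1 / 2 * Z := b4.trans (by gcongr; exact min_le_left _ _)
  have hff' : κ * ff Z ≤ α / 4 * Z := b4.trans (by gcongr; exact min_le_right _ _)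
  have hn0 : (0 : ℝ) < n := by linarith
  rw [sub_zero] at n3
  have hsm : Z ^ (-(1 - ε / 2)) ≤ 1 := by
    apply Real.rpow_le_one_of_one_le_of_nonpos b1
    linarith
  have hm1 : α * Z - 1 ≤ m := by
    have h2 := (abs_le.1 n3).2
    have h3 : α * Z ≤ α * n := by gcongr
    linarith
  have hm0 : (0 : ℝ) < m := by linarith
  obtain ⟨n', rfl⟩ : ∃ n' : ℕ, (n' : ℤ) = n := ⟨n.toNat, Int.toNat_of_nonneg (by
    have : (0 : ℤ) < n := by exact_mod_cast hn0
    omega)⟩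
  obtain ⟨m', rfl⟩ : ∃ m' : ℕ, (m' : ℤ) = m := ⟨m.toNat, Int.toNat_of_nonneg (by
    have : (0 : ℤ) < m := by exact_mod_cast hm0
    omega)⟩
  have hnc : ((n' : ℤ) : ℝ) = (n' : ℝ) := by push_cast; rfl
  have hmc : ((m' : ℤ) : ℝ) = (m' : ℝ) := by push_cast; rfl
  have hle : κ * (1 / 2 / 32) * ff n' ≤ κ * ff Z := by
    have := b9 n' (by rw [← hnc]; exact n1.le) (by rw [← hnc]; linarith)
    calc κ * (1 / 2 / 32) * ff n' = κ * (1 / 2 / 32 * ff n') := by ring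
      _ ≤ _ := mul_le_mul_of_nonneg_left this hκ.le
  refine ⟨n', m', ?_, ?_, ?_, ?_, ?_⟩
  · rw [← hnc]
    exact ((le_max_left _ _).trans b2).trans n1.le
  · rw [← hmc]
    linarith
  · rw [hnc] at n1 n2 n3 hn0
    rw [hmc] at n3
    have e1 : |α - m' / n'| = |α * n' - m'| / n' := by
      have : α - (m' : ℝ) / n' = (α * n' - m') / n' := by field_simp
      rw [this, abs_div, abs_of_pos hn0]
    rw [e1, div_le_iff₀ hn0]
    have e2 : (n' : ℝ) ^ (-(2 - ε)) * n' = (n' : ℝ) ^ (-(1 - ε)) := by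
      conv_lhs => rw [← Real.rpow_one (n' : ℝ), ← Real.rpow_mul hn0.le, one_mul,
        ← Real.rpow_add hn0]
      congr 1
      ring
    rw [e2]
    refine n3.trans ?_
    have e3 : (2 * Z) ^ (-(1 - ε)) ≤ (n' : ℝ) ^ (-(1 - ε)) :=
      Real.rpow_le_rpow_of_nonpos hn0 (by linarith) (by linarith)
    refine le_trans ?_ e3
    rw [Real.mul_rpow (by norm_num) hZ0.le]
    have e4 : (1 / 2 : ℝ) ≤ (2 : ℝ) ^ (-(1 - ε)) := by
      calc (1 / 2 : ℝ) = (2 : ℝ) ^ (-1 : ℝ) := by rw [Real.rpow_neg_one]; norm_num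
        _ ≤ _ := Real.rpow_le_rpow_of_exponent_le (by norm_num) (by linarith)
    have e5 : 0 < Z ^ (-(1 - ε)) := Real.rpow_pos_of_pos hZ0 _
    nlinarith
  · intro q hq
    refine lt_of_le_of_lt hle ?_
    have h7 := no_prime n4 (by rw [hnc] at n1 ⊢; linarith) q hq
    rwa [hnc] at h7
  · intro q hq
    refine lt_of_le_of_lt hle ?_
    have hb : Z ^ (ε / 2) ≤ α * Z / 4 := by
      have h8 : (4 / α) * Z ^ (ε / 2) ≤ Z := by
        have : 0 < Z ^ (ε / 2) := Real.rpow_pos_of_pos hZ0 _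
        nlinarith
      have h9 : Z ^ (ε / 2) = α / 4 * ((4 / α) * Z ^ (ε / 2)) := by field_simp
      rw [h9]
      calc α / 4 * (4 / α * Z ^ (ε / 2)) ≤ α / 4 * Z := by gcongr
        _ = α * Z / 4 := by ring
    have h7 := no_prime n5 (by rw [hmc] at hm1 ⊢; linarith) q hq
    rwa [hmc] at h7

end Pool.Agent.N825.ND
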