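import Pool.Agent.N825.ND.Core

set_option autoImplicit false

/-!
# Rational approximations whose numerator and denominator lie in record prime gaps: uniform form
-/

namespace Pool.Agent.N825.ND

open Finset Filter
open Pool.Agent.TH915.PW (pair bad_N)
open Pool.Agent.W147.PS (ff ff_compare ev_pow)

/-- a lattice point of a unimodular planar lattice near a given point -/
lemma near (α : ℝ) (s₁ s₂ : ℕ) (p₁ p₂ : ℤ) (N : ℝ) (hN : 0 < N)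
    (h₁ : |(s₁ : ℝ) * α - p₁| ≤ 1 / N) (h₂ : |(s₂ : ℝ) * α - p₂| ≤ 1 / N)
    (D : ℤ) (hD : (s₁ : ℤ) * p₂ - s₂ * p₁ = D) (hD2 : D * D = 1) (T β : ℝ) :
    ∃ n m : ℤ, T - (s₁ + s₂) ≤ n ∧ (n : ℝ) ≤ T ∧ |α * n - β - m| ≤ 2 / N := by
  set e₁ : ℝ := (s₁ : ℝ) * α - p₁ with he₁
  set e₂ : ℝ := (s₂ : ℝ) * α - p₂ with he₂
  have hdet : (s₂ : ℝ) * e₁ - s₁ * e₂ = D := by
    have : ((s₁ : ℝ) * p₂ - s₂ * p₁) = D := by exact_mod_cast hD
    rw [he₁, he₂, ← this]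
    ring
  have hD2' : (D : ℝ) * D = 1 := by exact_mod_cast hD2
  set u : ℝ := D * (s₂ * β - T * e₂) with hu
  set v : ℝ := D * (T * e₁ - s₁ * β) with hv
  have hT : u * s₁ + v * s₂ = T := by
    have : u * s₁ + v * s₂ = D * ((s₂ : ℝ) * e₁ - s₁ * e₂) * T := by rw [hu, hv]; ring
    rw [this, hdet, hD2', one_mul]
  have hβ : u * e₁ + v * e₂ = β := by
    have : u * e₁ + v * e₂ = D * ((s₂ : ℝ) * e₁ - s₁ * e₂) * β := by rw [hu, hv]; ring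
    rw [this, hdet, hD2', one_mul]
  have hfu := Int.floor_add_fract u
  have hfv := Int.floor_add_fract v
  have u0 := Int.fract_nonneg u
  have u1 := (Int.fract_lt_one u).le
  have v0 := Int.fract_nonneg v
  have v1 := (Int.fract_lt_one v).le
  have hs₁ : (0 : ℝ) ≤ s₁ := Nat.cast_nonneg _
  have hs₂ : (0 : ℝ) ≤ s₂ := Nat.cast_nonneg _
  have hn : ((⌊u⌋ * s₁ + ⌊v⌋ * s₂ : ℤ) : ℝ) = T - (Int.fract u * s₁ + Int.fract v * s₂) := by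
    push_cast
    have e1 : (⌊u⌋ : ℝ) = u - Int.fract u := by linarith
    have e2 : (⌊v⌋ : ℝ) = v - Int.fract v := by linarith
    rw [e1, e2, ← hT]
    ring
  refine ⟨⌊u⌋ * s₁ + ⌊v⌋ * s₂, ⌊u⌋ * p₁ + ⌊v⌋ * p₂, ?_, ?_, ?_⟩
  · rw [hn]
    nlinarith
  · rw [hn]
    nlinarith [mul_nonneg u0 hs₁, mul_nonneg v0 hs₂]
  · have e : α * ((⌊u⌋ * s₁ + ⌊v⌋ * s₂ : ℤ) : ℝ) - β - ((⌊u⌋ * p₁ + ⌊v⌋ * p₂ : ℤ) : ℝ) =
        -(Int.fract u * e₁ + Int.fract v * e₂) := by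
      push_cast
      have e1 : (⌊u⌋ : ℝ) = u - Int.fract u := by linarith
      have e2 : (⌊v⌋ : ℝ) = v - Int.fract v := by linarith
      rw [e1, e2]
      have : α * ((u - Int.fract u) * s₁ + (v - Int.fract v) * s₂) - β -
          ((u - Int.fract u) * p₁ + (v - Int.fract v) * p₂) =
          (u * e₁ + v * e₂ - β) - (Int.fract u * e₁ + Int.fract v * e₂) := by
        rw [he₁, he₂]; ring
      rw [this, hβ]
      ring
    rw [e, abs_neg]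
    have a1 : |Int.fract u * e₁| ≤ 1 * (1 / N) := by
      rw [abs_mul, abs_of_nonneg u0]
      exact mul_le_mul u1 h₁ (abs_nonneg _) (by norm_num)
    have a2 : |Int.fract v * e₂| ≤ 1 * (1 / N) := by
      rw [abs_mul, abs_of_nonneg v0]
      exact mul_le_mul v1 h₂ (abs_nonneg _) (by norm_num)
    calc |Int.fract u * e₁ + Int.fract v * e₂| ≤ |Int.fract u * e₁| + |Int.fract v * e₂| :=
          abs_add_le _ _
      _ ≤ 1 * (1 / N) + 1 * (1 / N) := add_le_add a1 a2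
      _ = 2 / N := by ring

/-- every integer within `κ ff Z` of `n` has a prime factor at most `Z ^ ε` -/
def Mid (κ ε Z : ℝ) (n : ℤ) : Prop :=
  ∀ t : ℤ, |(t : ℝ) - n| ≤ κ * ff Z → ∃ p : ℕ, p.Prime ∧ (p : ℝ) ≤ Z ^ ε ∧ (p : ℤ) ∣ t

/-- the uniform theorem -/
theorem unif (ε : ℝ) (hε : 0 < ε) (hε1 : ε ≤ 1) : ∃ κ : ℝ, 0 < κ ∧ ∀ᶠ Z : ℝ in atTop,
    ∀ (α : ℝ) (N : ℕ), 1 ≤ N →
    (∀ q : ℕ, 1 ≤ q → q ≤ N → ∀ p : ℤ, Z ^ (-(1 - ε)) ≤ |(q : ℝ) * α - p|) →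
    ∀ M β : ℝ, ∃ n m : ℤ, M < n ∧ (n : ℝ) ≤ M + Z ∧ |α * n - β - m| ≤ Z ^ ε / N ∧
      Mid κ ε Z n ∧ Mid κ ε Z m := by
  obtain ⟨κ, hκ, X₀, hbox⟩ := box
  set η : ℝ := ε / 12 with hη
  have hη0 : 0 < η := by positivity
  have hη1 : η ≤ 1 := by rw [hη]; linarith
  refine ⟨κ * (η / 32), by positivity, ?_⟩
  filter_upwards [ff_compare η hη0 hη1, (tendsto_rpow_atTop hη0).eventually_ge_atTop X₀,
    eventually_ge_atTop (1 : ℝ), ev_pow (5 * η) (6 * η) 2 (by linarith),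
    ev_pow 0 (5 * η) 1 (by linarith), ev_pow (1 - ε + 6 * η) 1 8 (by rw [hη]; linarith),
    ev_pow (6 * η) ε 4 (by rw [hη]; linarith)] with Z hff hZX hZ1 hZ2 hZ5 hZ3 hZ4
  intro α N hN hq M β
  have hZ0 : 0 < Z := by linarith
  have hN0 : (0 : ℝ) < N := by exact_mod_cast hN
  obtain ⟨s₁, s₂, p₁, p₂, hs₁, hs₁', hs₂, hs₂', hd₁, hd₂, hdet⟩ :=
    pair α N hN (Z ^ (-(1 - ε))) (Real.rpow_pos_of_pos hZ0 _) hq
  have h1d : 1 / Z ^ (-(1 - ε)) = Z ^ (1 - ε) := by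
    rw [Real.rpow_neg hZ0.le, one_div, inv_inv]
  rw [h1d] at hs₁' hs₂'
  have hs₁0 : (1 : ℝ) ≤ s₁ := by exact_mod_cast hs₁
  have hs₂0 : (1 : ℝ) ≤ s₂ := by exact_mod_cast hs₂
  -- the side of the box
  set L : ℕ := ⌊Z ^ (6 * η)⌋₊ with hL
  have hZ6 : 1 ≤ Z ^ (6 * η) := Real.one_le_rpow hZ1 (by positivity)
  have hL2 : (L : ℝ) ≤ Z ^ (6 * η) := Nat.floor_le (by positivity)
  have hL1 : Z ^ (6 * η) < L + 1 := Nat.lt_floor_add_one _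
  rw [Real.rpow_zero, mul_one] at hZ5
  have hX5 : (Z ^ η) ^ 5 ≤ L := by
    have e : (Z ^ η) ^ 5 = Z ^ (5 * η) := by
      rw [← Real.rpow_natCast, ← Real.rpow_mul hZ0.le]
      congr 1
      push_cast
      ring
    rw [e]
    linarith
  -- the determinant
  obtain ⟨D, hD, hD2⟩ : ∃ D : ℤ, (s₁ : ℤ) * p₂ - s₂ * p₁ = D ∧ D * D = 1 := by
    rcases hdet with h | h
    · exact ⟨1, h, by norm_num⟩
    · exact ⟨-1, h, by norm_num⟩
  obtain ⟨n₀, m₀, a1, a2, a3⟩ := near α s₁ s₂ p₁ p₂ N hN0 hd₁ hd₂ D hD hD2 (M + (s₁ + s₂)) β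
  obtain ⟨x, y, hx, hy, hn, hm⟩ := hbox (Z ^ η) hZX L hX5 n₀ m₀ s₁ s₂ p₁ p₂ D hD hD2
  have hx1 : (0 : ℝ) < x := by exact_mod_cast hx.1
  have hx2 : (x : ℝ) ≤ L := by exact_mod_cast hx.2
  have hy1 : (0 : ℝ) < y := by exact_mod_cast hy.1
  have hy2 : (y : ℝ) ≤ L := by exact_mod_cast hy.2
  have hcmp : κ * (η / 32) * ff Z ≤ κ * ff (Z ^ η) := by
    have h5 := (hff.2 (Z ^ η) le_rfl (by
      calc Z ^ η ≤ Z ^ (2 : ℝ) := Real.rpow_le_rpow_of_exponent_le hZ1 (by linarith)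
        _ = Z ^ 2 := by norm_num)).1
    calc κ * (η / 32) * ff Z = κ * (η / 32 * ff Z) := by ring
      _ ≤ _ := mul_le_mul_of_nonneg_left h5 hκ.le
  have hpow : (Z ^ η) ^ (1 / 10 : ℝ) ≤ Z ^ ε := by
    rw [← Real.rpow_mul hZ0.le]
    apply Real.rpow_le_rpow_of_exponent_le hZ1
    rw [hη]
    linarith
  have hprod : Z ^ (6 * η) * Z ^ (1 - ε) = Z ^ (1 - ε + 6 * η) := by
    rw [← Real.rpow_add hZ0]
    congr 1
    ring
  have hZp : 0 < Z ^ (1 - ε) := Real.rpow_pos_of_pos hZ0 _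
  rw [Real.rpow_one] at hZ3
  refine ⟨n₀ + x * s₁ + y * s₂, m₀ + x * p₁ + y * p₂, ?_, ?_, ?_, ?_, ?_⟩
  · push_cast
    have : (0 : ℝ) < x * s₁ := by positivity
    have : (0 : ℝ) < y * s₂ := by positivity
    linarith
  · push_cast
    have b1 : (x : ℝ) * s₁ ≤ Z ^ (6 * η) * Z ^ (1 - ε) :=
      mul_le_mul (hx2.trans hL2) hs₁' (by positivity) (by positivity)
    have b2 : (y : ℝ) * s₂ ≤ Z ^ (6 * η) * Z ^ (1 - ε) :=
      mul_le_mul (hy2.trans hL2) hs₂' (by positivity) (by positivity)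
    have b3 : Z ^ (1 - ε) ≤ Z ^ (6 * η) * Z ^ (1 - ε) := by nlinarith
    rw [hprod] at b1 b2 b3
    linarith
  · have e : α * ((n₀ + x * s₁ + y * s₂ : ℤ) : ℝ) - β - ((m₀ + x * p₁ + y * p₂ : ℤ) : ℝ) =
        (α * n₀ - β - m₀) + x * ((s₁ : ℝ) * α - p₁) + y * ((s₂ : ℝ) * α - p₂) := by
      push_cast; ring
    rw [e]
    have c1 : |(x : ℝ) * ((s₁ : ℝ) * α - p₁)| ≤ L * (1 / N) := by
      rw [abs_mul, abs_of_pos hx1]
      exact mul_le_mul hx2 hd₁ (abs_nonneg _) (by positivity)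
    have c2 : |(y : ℝ) * ((s₂ : ℝ) * α - p₂)| ≤ L * (1 / N) := by
      rw [abs_mul, abs_of_pos hy1]
      exact mul_le_mul hy2 hd₂ (abs_nonneg _) (by positivity)
    have c3 : (2 : ℝ) / N + L * (1 / N) + L * (1 / N) ≤ Z ^ ε / N := by
      rw [show (2 : ℝ) / N + L * (1 / N) + L * (1 / N) = (2 + 2 * L) / N by ring]
      apply div_le_div_of_nonneg_right _ hN0.le
      linarith
    refine le_trans ?_ c3
    refine (abs_add_le _ _).trans (add_le_add ((abs_add_le _ _).trans (add_le_add a3 c1)) c2)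
  · intro t ht
    obtain ⟨p, hp, hpX, hpt⟩ := hn t (ht.trans hcmp)
    exact ⟨p, hp, hpX.trans hpow, hpt⟩
  · intro t ht
    obtain ⟨p, hp, hpX, hpt⟩ := hm t (ht.trans hcmp)
    exact ⟨p, hp, hpX.trans hpow, hpt⟩

end Pool.Agent.N825.ND
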